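import Pool.Agent.H23.SB.Siz

/-!
# SB.Ent : `jl k t = t^k ent k (t^2)` with smooth functions `ent k` on the whole line

`ent 0` is the entire function with `ent 0 (t^2) = sin t / t`, `ent (k+1) = -2 (ent k)'`, and
`|ent k q| ≤ 1 / (2k+1)!!` for `q ≥ 0`.
-/

set_option autoImplicit false

namespace Pool.Agent.H23.SB

open Filter Topology Set
open scoped ContDiff Nat
open Pool.Agent.H68.SC

/-- coefficients of `ent 0` -/
noncomputable def ce (m : ℕ) : ℝ := (-1) ^ m / ((2 * m + 1)! : ℝ)

/-- the entire function of `sin t / t` -/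
noncomputable def ent0 : ℝ → ℝ := FormalMultilinearSeries.ofScalarsSum ce

private theorem ce_ne (m : ℕ) : ce m ≠ 0 := by
  unfold ce
  have : ((2 * m + 1)! : ℝ) ≠ 0 := by positivity
  exact div_ne_zero (pow_ne_zero _ (by norm_num)) this

private theorem radius : (FormalMultilinearSeries.ofScalars ℝ ce).radius = ⊤ := by
  apply FormalMultilinearSeries.ofScalars_radius_eq_top_of_tendsto
  · exact Eventually.of_forall ce_ne
  · have h : ∀ m : ℕ, ‖ce m.succ‖ / ‖ce m‖ ≤ 1 / ((m : ℝ) + 1) := by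
      intro m
      have h1 : ‖ce m.succ‖ / ‖ce m‖ = 1 / ((2 * (m : ℝ) + 3) * (2 * m + 2)) := by
        unfold ce
        rw [norm_div, norm_div, norm_pow, norm_pow, norm_neg, norm_one, one_pow, one_pow,
          Real.norm_of_nonneg (by positivity), Real.norm_of_nonneg (by positivity),
          show 2 * m.succ + 1 = (2 * m + 1) + 1 + 1 by simp [Nat.succ_eq_add_one]; ring,
          Nat.factorial_succ, Nat.factorial_succ]
        push_cast
        field_simp
        ring
      rw [h1]
      have hm : (0 : ℝ) ≤ m := Nat.cast_nonneg m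
      apply one_div_le_one_div_of_le (by positivity)
      nlinarith
    exact squeeze_zero (fun m => by positivity) h tendsto_one_div_add_atTop_nhds_zero_nat

theorem ent0_contDiff : ContDiff ℝ ∞ ent0 := by
  have h1 : HasFPowerSeriesOnBall ent0 (FormalMultilinearSeries.ofScalars ℝ ce) 0 ⊤ := by
    have h := (FormalMultilinearSeries.ofScalars ℝ ce).hasFPowerSeriesOnBall
      (by rw [radius]; exact ENNReal.zero_lt_top)
    rw [radius] at h
    exact h
  have h2 := h1.analyticOnNhd
  rw [Metric.eball_top] at h2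
  exact h2.contDiff

/-- `ent k = (-2)^k (ent 0)^(k)` -/
noncomputable def ent (k : ℕ) (q : ℝ) : ℝ := (-2) ^ k * iteratedDeriv k ent0 q

theorem ent_contDiff (k : ℕ) : ContDiff ℝ ∞ (ent k) := by
  have h1 : ContDiff ℝ ∞ (iteratedDeriv k ent0) := by
    have := ContDiff.iterate_deriv k ent0_contDiff
    rwa [← iteratedDeriv_eq_iterate] at this
  exact contDiff_const.mul h1

theorem ent_deriv (k : ℕ) (q : ℝ) : HasDerivAt (ent k) (-(ent (k + 1) q) / 2) q := by
  have h1 : HasDerivAt (iteratedDeriv k ent0) (iteratedDeriv (k + 1) ent0 q) q := by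
    rw [iteratedDeriv_succ]
    exact (ent0_contDiff.differentiable_iteratedDeriv k (by
      exact_mod_cast ENat.natCast_lt_top k)).differentiableAt.hasDerivAt
  refine (h1.const_mul ((-2 : ℝ) ^ k)).congr_deriv ?_
  unfold ent
  rw [pow_succ]
  ring

theorem ent0_sq {t : ℝ} (ht : t ≠ 0) : ent 0 (t ^ 2) = Real.sin t / t := by
  have h1 : HasSum (fun n : ℕ => (-1) ^ n * t ^ (2 * n + 1) / ((2 * n + 1)! : ℝ)) (Real.sin t) :=
    Real.hasSum_sin t
  have h2 := h1.div_const t
  unfold ent ent0
  rw [iteratedDeriv_zero, pow_zero, one_mul, FormalMultilinearSeries.ofScalars_sum_eq, ← h2.tsum_eq]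
  apply tsum_congr
  intro n
  unfold ce
  rw [smul_eq_mul, ← pow_mul]
  field_simp
  ring

theorem jl_ent (k : ℕ) : ∀ {t : ℝ}, 0 < t → jl k t = t ^ k * ent k (t ^ 2) := by
  induction k with
  | zero =>
    intro t ht
    rw [ent0_sq ht.ne', pow_zero, one_mul, jl]
  | succ k ih =>
    intro t ht
    have hne := ht.ne'
    have h1 : HasDerivAt (fun t : ℝ => t ^ k * ent k (t ^ 2))
        ((k : ℝ) * t ^ (k - 1) * ent k (t ^ 2) + t ^ k * (-(ent (k + 1) (t ^ 2)) / 2 *
          ((2 : ℕ) * t ^ (2 - 1)))) t := by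
      have h0 : HasDerivAt (ent k ∘ fun t : ℝ => t ^ 2) (-(ent (k + 1) (t ^ 2)) / 2 *
          ((2 : ℕ) * t ^ (2 - 1))) t := (ent_deriv k (t ^ 2)).comp t (hasDerivAt_pow 2 t)
      exact (hasDerivAt_pow k t).mul h0
    have h2 : HasDerivAt (jl k) ((k : ℝ) * t ^ (k - 1) * ent k (t ^ 2) +
        t ^ k * (-(ent (k + 1) (t ^ 2)) / 2 * ((2 : ℕ) * t ^ (2 - 1)))) t := by
      refine h1.congr_of_eventuallyEq ?_
      filter_upwards [lt_mem_nhds ht] with y hy
      exact ih hy
    have h3 := h2.unique (jl_deriv k ht)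
    unfold djl at h3
    rw [ih ht] at h3
    have h4 : (k : ℝ) * t ^ (k - 1) = (k : ℝ) / t * t ^ k := by
      rcases k with _ | k
      · simp
      · rw [Nat.add_sub_cancel, pow_succ]
        field_simp
    rw [h4] at h3
    have h5 : ((2 : ℕ) : ℝ) * t ^ (2 - 1) = 2 * t := by norm_num
    rw [h5] at h3
    rw [pow_succ]
    linarith

theorem ent_abs_le (k : ℕ) {q : ℝ} (hq : 0 ≤ q) : |ent k q| ≤ 1 / dfac k := by
  have hpos : ∀ q : ℝ, 0 < q → |ent k q| ≤ 1 / dfac k := by
    intro q hq
    have hs : 0 < √q := Real.sqrt_pos.2 hq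
    have h1 := jl_abs_le k hs
    rw [jl_ent k hs, Real.sq_sqrt hq.le, abs_mul, abs_of_pos (pow_pos hs k)] at h1
    have h2 : √q ^ k / dfac k = √q ^ k * (1 / dfac k) := by ring
    rw [h2] at h1
    exact le_of_mul_le_mul_left h1 (pow_pos hs k)
  rcases hq.eq_or_lt with h | h
  · subst h
    have hc : ContinuousWithinAt (fun q => |ent k q|) (Ioi 0) 0 :=
      ((ent_contDiff k).continuous.abs).continuousWithinAt
    exact le_of_tendsto hc (by
      filter_upwards [self_mem_nhdsWithin] with q hq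
      exact hpos q hq)
  · exact hpos q h

end Pool.Agent.H23.SB
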