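import Pool.Agent.H68.SC.JZero

/-!
# SB.Mon : the spherical Bessel functions below the turning point

`jl_low`: `a jl ≤ t djl` if `a (a + 1) + t^2 ≤ l (l + 1)`; upper bound `t djl ≤ l jl`; monotonicity and
comparison of values; size near zero.
-/

set_option autoImplicit false

namespace Pool.Agent.H23.SB

open Filter Topology Set
open Pool.Agent.H68.SC

private theorem slope {G G' : ℝ → ℝ} {T : ℝ}
    (hG : ∀ t, 0 < t → t ≤ T → HasDerivAt G (G' t) t) {a b : ℝ} (ha : 0 < a) (hab : a < b)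
    (hb : b ≤ T) : ∃ c, 0 < c ∧ a < c ∧ c < b ∧ G b - G a = G' c * (b - a) := by
  obtain ⟨c, hc, hc2⟩ := exists_hasDerivAt_eq_slope G G' hab
    (fun x hx => (hG x (ha.trans_le hx.1) (hx.2.trans hb)).continuousAt.continuousWithinAt)
    (fun x hx => hG x (ha.trans hx.1) (hx.2.le.trans hb))
  have h2 : 0 < b - a := sub_pos.2 hab
  refine ⟨c, ha.trans hc.1, hc.1, hc.2, ?_⟩
  rw [hc2, div_mul_cancel₀ _ h2.ne']

/-- a function with nonnegative derivative on `(0, T]` is monotone there -/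
theorem mono_of_deriv {G G' : ℝ → ℝ} {T : ℝ}
    (hG : ∀ t, 0 < t → t ≤ T → HasDerivAt G (G' t) t) (h0 : ∀ t, 0 < t → t ≤ T → 0 ≤ G' t)
    {a b : ℝ} (ha : 0 < a) (hab : a ≤ b) (hb : b ≤ T) : G a ≤ G b := by
  rcases hab.eq_or_lt with h | h
  · rw [h]
  · obtain ⟨c, hc0, -, hcb, hc⟩ := slope hG ha h hb
    have h1 := mul_nonneg (h0 c hc0 (hcb.le.trans hb)) (sub_pos.2 h).le
    linarith

/-- a function with nonnegative derivative on `(0, T]`, of size `O(t)` at zero, is nonnegative -/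
theorem nonneg_of_deriv {G G' : ℝ → ℝ} {T C : ℝ}
    (hG : ∀ t, 0 < t → t ≤ T → HasDerivAt G (G' t) t) (h0 : ∀ t, 0 < t → t ≤ T → 0 ≤ G' t)
    (hC : ∀ t, 0 < t → t ≤ 1 → |G t| ≤ C * t) {t : ℝ} (ht : 0 < t) (htT : t ≤ T) : 0 ≤ G t := by
  by_contra h
  push Not at h
  have hC0 : 0 ≤ C := by
    have h1 := (abs_nonneg _).trans (hC 1 one_pos le_rfl)
    simpa using h1
  have hq : 0 < -G t / (2 * (C + 1)) := by
    apply div_pos <;> linarith
  set s := min (min t 1) (-G t / (2 * (C + 1))) with hs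
  have hs0 : 0 < s := lt_min (lt_min ht one_pos) hq
  have hst : s ≤ t := (min_le_left _ _).trans (min_le_left _ _)
  have hs1 : s ≤ 1 := (min_le_left _ _).trans (min_le_right _ _)
  have hsq : s ≤ -G t / (2 * (C + 1)) := min_le_right _ _
  have h1 := mono_of_deriv hG h0 hs0 hst htT
  have h2 := (abs_le.1 (hC s hs0 hs1)).1
  rw [le_div_iff₀ (by linarith)] at hsq
  nlinarith

/-- derivative of `djl` -/
theorem djl_deriv (l : ℕ) {t : ℝ} (ht : 0 < t) :
    HasDerivAt (djl l) (((l : ℝ) * (l + 1) / t ^ 2 - 1) * jl l t - 2 / t * djl l t) t := by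
  have hne : t ≠ 0 := ht.ne'
  have h1 := (jl_ode l ht).div (hasDerivAt_pow 2 t) (pow_ne_zero 2 hne)
  have h2 : HasDerivAt (djl l) ((((l : ℝ) * (l + 1) - t ^ 2) * jl l t * t ^ 2 -
      t ^ 2 * djl l t * (((2 : ℕ) : ℝ) * t ^ (2 - 1))) / (t ^ 2) ^ 2) t := by
    refine h1.congr_of_eventuallyEq ?_
    filter_upwards [lt_mem_nhds ht] with y hy
    have hyne : y ≠ 0 := ne_of_gt hy
    simp only [Pi.div_apply]
    field_simp
  refine h2.congr_deriv ?_
  push_cast
  field_simp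

/-- `a j ≤ t j'` below the turning point -/
theorem jl_low (l : ℕ) {a T : ℝ} (ha : 0 ≤ a) (hT : a * (a + 1) + T ^ 2 ≤ (l : ℝ) * (l + 1))
    {t : ℝ} (ht : 0 < t) (htT : t ≤ T) : a * jl l t ≤ t * djl l t := by
  have hpos : ∀ s, 0 < s → s ≤ T → 0 < jl l s := fun s hs hsT => by
    apply jl_pos_sq l hs
    have h1 : s ^ 2 ≤ T ^ 2 := pow_le_pow_left₀ hs.le hsT 2
    nlinarith [mul_nonneg ha ha]
  have hd : ∀ s, 0 < s → s ≤ T → HasDerivAt (fun s => s ^ (1 + a) * (s * djl l s - a * jl l s))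
      (s ^ a * (((l : ℝ) * (l + 1) - s ^ 2 - a * (1 + a)) * jl l s)) s := by
    intro s hs _
    have hne : s ≠ 0 := hs.ne'
    have h1 := Real.hasDerivAt_rpow_const (x := s) (p := 1 + a) (Or.inl hne)
    have h2 := ((hasDerivAt_id s).mul (djl_deriv l hs)).sub ((jl_deriv l hs).const_mul a)
    have h3 := h1.mul h2
    refine h3.congr_deriv ?_
    have e1 : s ^ (1 + a - 1) = s ^ a := by rw [add_sub_cancel_left]
    have e2 : s ^ (1 + a) = s * s ^ a := by rw [Real.rpow_add hs, Real.rpow_one]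
    simp only [Pi.mul_apply, Pi.sub_apply, id]
    rw [e1, e2]
    field_simp
    ring
  have hC : ∀ s, 0 < s → s ≤ 1 →
      |s ^ (1 + a) * (s * djl l s - a * jl l s)| ≤ ((l : ℝ) + 1 + a) * s := by
    intro s hs hs1
    have h1 := djl_bound l hs hs1
    have h2 := jl_le_one l hs hs1
    have h3 := jl_pos_small l hs hs1
    have e2 : s ^ (1 + a) = s * s ^ a := by rw [Real.rpow_add hs, Real.rpow_one]
    have h4 : s ^ a ≤ 1 := Real.rpow_le_one hs.le hs1 ha
    have h5 : 0 ≤ s ^ a := Real.rpow_nonneg hs.le a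
    have hl : (0 : ℝ) ≤ l := Nat.cast_nonneg l
    have h6 : |s * djl l s - a * jl l s| ≤ (l : ℝ) + 1 + a := by
      have h7 : |s * djl l s - a * jl l s| ≤ |s * djl l s| + |a * jl l s| := abs_sub _ _
      rw [abs_of_nonneg (mul_nonneg ha h3.le)] at h7
      nlinarith
    rw [e2, abs_mul, abs_of_nonneg (mul_nonneg hs.le h5)]
    have h8 : s * s ^ a ≤ s := by nlinarith
    calc s * s ^ a * |s * djl l s - a * jl l s| ≤ s * ((l : ℝ) + 1 + a) :=
          mul_le_mul h8 h6 (abs_nonneg _) hs.le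
      _ = _ := by ring
  have h := nonneg_of_deriv hd (fun s hs hsT => by
    have h1 : s ^ 2 ≤ T ^ 2 := pow_le_pow_left₀ hs.le hsT 2
    have h2 := Real.rpow_nonneg hs.le a
    have h3 : 0 ≤ (l : ℝ) * (l + 1) - s ^ 2 - a * (1 + a) := by linarith
    exact mul_nonneg h2 (mul_nonneg h3 (hpos s hs hsT).le)) hC ht htT
  have h9 : 0 < t ^ (1 + a) := Real.rpow_pos_of_pos ht _
  have h10 : 0 ≤ t * djl l t - a * jl l t := nonneg_of_mul_nonneg_right h h9
  linarith

/-- `j' ≥ 0` below the turning point -/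
theorem djl_nonneg (l : ℕ) {t : ℝ} (ht : 0 < t) (h : t ^ 2 ≤ (l : ℝ) * (l + 1)) : 0 ≤ djl l t := by
  have h1 := jl_low l (a := 0) (T := t) le_rfl (by simpa using h) ht le_rfl
  rw [zero_mul] at h1
  exact nonneg_of_mul_nonneg_right h1 ht

/-- `t j' ≥ (l / 2) j` if `2 t^2 ≤ l (l + 1)` -/
theorem djl_half (l : ℕ) {t : ℝ} (ht : 0 < t) (h : 2 * t ^ 2 ≤ (l : ℝ) * (l + 1)) :
    (l : ℝ) / 2 * jl l t ≤ t * djl l t := by
  have hl : (0 : ℝ) ≤ l := Nat.cast_nonneg l
  exact jl_low l (a := (l : ℝ) / 2) (T := t) (by positivity) (by nlinarith) ht le_rfl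

/-- `j_(l+1) > 0` as long as `t^2 ≤ l (l + 1)` -/
theorem jl_succ_pos (l : ℕ) {t : ℝ} (ht : 0 < t) (h : t ^ 2 ≤ (l : ℝ) * (l + 1)) :
    0 < jl (l + 1) t :=
  jl_pos_succ l (T := t) (fun s hs hst => jl_pos_sq l hs (by
    have h1 : s ^ 2 ≤ t ^ 2 := pow_le_pow_left₀ hs.le hst 2
    linarith)) t ht le_rfl

/-- `t j' ≤ l j` below the turning point -/
theorem djl_upper (l : ℕ) {t : ℝ} (ht : 0 < t) (h : t ^ 2 ≤ (l : ℝ) * (l + 1)) :
    t * djl l t ≤ l * jl l t := by
  have h1 := jl_succ_pos l ht h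
  have h2 : t * djl l t = l * jl l t - t * jl (l + 1) t := by
    unfold djl
    field_simp
  rw [h2]
  have := mul_pos ht h1
  linarith

/-- monotone below the turning point -/
theorem jl_mono (l : ℕ) {s t : ℝ} (hs : 0 < s) (hst : s ≤ t) (h : t ^ 2 ≤ (l : ℝ) * (l + 1)) :
    jl l s ≤ jl l t :=
  mono_of_deriv (T := t) (fun r hr _ => jl_deriv l hr) (fun r hr hrt => djl_nonneg l hr (by
    have h1 : r ^ 2 ≤ t ^ 2 := pow_le_pow_left₀ hr.le hrt 2
    linarith)) hs hst le_rfl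

/-- growth at least like `t^n` below the point where `n (n + 1) + t^2 = l (l + 1)` -/
theorem jl_ratio (l n : ℕ) {s t : ℝ} (hs : 0 < s) (hst : s ≤ t)
    (h : (n : ℝ) * (n + 1) + t ^ 2 ≤ (l : ℝ) * (l + 1)) : jl l s * t ^ n ≤ jl l t * s ^ n := by
  have ht : 0 < t := hs.trans_le hst
  have hn : (0 : ℝ) ≤ n := Nat.cast_nonneg n
  have h1 : jl l s / s ^ n ≤ jl l t / t ^ n := by
    refine mono_of_deriv (G := fun r => jl l r / r ^ n)
      (G' := fun r => (r * djl l r - n * jl l r) / r ^ (n + 1)) (T := t) ?_ ?_ hs hst le_rfl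
    · intro r hr _
      have hne : r ≠ 0 := hr.ne'
      have h2 := (jl_deriv l hr).div (hasDerivAt_pow n r) (pow_ne_zero n hne)
      refine h2.congr_deriv ?_
      rcases n with _ | n
      · simp
        field_simp
      · rw [Nat.add_sub_cancel]
        field_simp
        ring
    · intro r hr hrt
      have h2 := jl_low l (a := n) (T := t) hn h hr hrt
      exact div_nonneg (by linarith) (pow_nonneg hr.le _)
  rw [div_le_div_iff₀ (pow_pos hs n) (pow_pos ht n)] at h1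
  exact h1

/-- growth at most like `t^l` below the turning point -/
theorem jl_ratio_up (l : ℕ) {s t : ℝ} (hs : 0 < s) (hst : s ≤ t)
    (h : t ^ 2 ≤ (l : ℝ) * (l + 1)) : jl l t * s ^ l ≤ jl l s * t ^ l := by
  have ht : 0 < t := hs.trans_le hst
  have h1 : -(jl l s / s ^ l) ≤ -(jl l t / t ^ l) := by
    refine mono_of_deriv (G := fun r => -(jl l r / r ^ l))
      (G' := fun r => (l * jl l r - r * djl l r) / r ^ (l + 1)) (T := t) ?_ ?_ hs hst le_rfl
    · intro r hr _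
      have hne : r ≠ 0 := hr.ne'
      have h2 := ((jl_deriv l hr).div (hasDerivAt_pow l r) (pow_ne_zero l hne)).neg
      refine h2.congr_deriv ?_
      rcases l with _ | l
      · simp
        field_simp
      · rw [Nat.add_sub_cancel]
        field_simp
        ring
    · intro r hr hrt
      have h1 : r ^ 2 ≤ t ^ 2 := pow_le_pow_left₀ hr.le hrt 2
      have h2 := djl_upper l hr (by linarith)
      exact div_nonneg (by linarith) (pow_nonneg hr.le _)
  have h3 : jl l t / t ^ l ≤ jl l s / s ^ l := by linarith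
  rw [div_le_div_iff₀ (pow_pos ht l) (pow_pos hs l)] at h3
  exact h3

end Pool.Agent.H23.SB
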