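import Pool.Agent.H23.SB.Mon

/-!
# SB.Siz : size of the spherical Bessel functions near zero

`|jl l t| ≤ t^l / (2l+1)!!` and `t^l / (2l+1)!! (1 - t^2 / (2 (2l+3))) ≤ jl l t` for all `t > 0`.
-/

set_option autoImplicit false

namespace Pool.Agent.H23.SB

open Filter Topology Set
open Pool.Agent.H68.SC

/-- the odd double factorial `(2l+1)!!` as a real number -/
noncomputable def dfac : ℕ → ℝ
  | 0 => 1
  | (l + 1) => (2 * (l : ℝ) + 3) * dfac l

theorem dfac_pos (l : ℕ) : 0 < dfac l := by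
  induction l with
  | zero => exact one_pos
  | succ l ih => rw [dfac]; positivity

private theorem jl0 (t : ℝ) : jl 0 t = Real.sin t / t := by rw [jl]

/-- `t^(l+2) jl (l+1) t` is small at zero -/
private theorem small (l : ℕ) : ∀ t, 0 < t → t ≤ 1 → |t ^ (l + 2) * jl (l + 1) t| ≤ 1 * t := by
  intro t ht ht1
  have h1 := jl_pos_small (l + 1) ht ht1
  have h2 := jl_le_one (l + 1) ht ht1
  have h3 : 0 ≤ t ^ (l + 1) := pow_nonneg ht.le _
  have h4 : t ^ (l + 1) ≤ 1 := pow_le_one₀ ht.le ht1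
  rw [abs_of_nonneg (mul_nonneg (pow_nonneg ht.le _) h1.le), pow_succ]
  have h5 : t ^ (l + 1) * jl (l + 1) t ≤ 1 := by nlinarith
  nlinarith

theorem jl_abs_le (l : ℕ) {t : ℝ} (ht : 0 < t) : |jl l t| ≤ t ^ l / dfac l := by
  induction l generalizing t with
  | zero =>
    rw [jl0, dfac, pow_zero, div_one, abs_div, abs_of_pos ht, div_le_one ht]
    exact (Real.abs_sin_le_abs (x := t)).trans_eq (abs_of_pos ht)
  | succ l ih =>
    have hl : (0 : ℝ) ≤ l := Nat.cast_nonneg l
    have hd := dfac_pos l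
    have hG : ∀ s : ℝ, HasDerivAt (fun s : ℝ => s ^ (2 * l + 3) / dfac (l + 1))
        (s ^ (2 * l + 2) / dfac l) s := by
      intro s
      have h := (hasDerivAt_pow (2 * l + 3) s).div_const (dfac (l + 1))
      refine h.congr_deriv ?_
      rw [show 2 * l + 3 - 1 = 2 * l + 2 from rfl, dfac]
      push_cast
      field_simp
    have hsm : ∀ s : ℝ, 0 < s → s ≤ 1 → |s ^ (2 * l + 3) / dfac (l + 1)| ≤ 1 / dfac (l + 1) * s := by
      intro s hs hs1
      have h1 : s ^ (2 * l + 2) ≤ 1 := pow_le_one₀ hs.le hs1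
      have h2 := dfac_pos (l + 1)
      rw [abs_of_nonneg (by positivity), pow_succ, one_div, div_eq_mul_inv, mul_comm]
      have h3 : 0 < (dfac (l + 1))⁻¹ := by positivity
      have h4 : s ^ (2 * l + 2) * s ≤ s := by nlinarith
      exact mul_le_mul_of_nonneg_left h4 h3.le
    have key : ∀ s : ℝ, 0 < s → |s ^ (l + 2) * jl l s| ≤ s ^ (2 * l + 2) / dfac l := by
      intro s hs
      have h1 := ih hs
      have h2 : s ^ (2 * l + 2) / dfac l = s ^ (l + 2) * (s ^ l / dfac l) := by
        rw [show 2 * l + 2 = (l + 2) + l by ring, pow_add]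
        ring
      rw [h2, abs_mul, abs_of_nonneg (pow_nonneg hs.le _)]
      exact mul_le_mul_of_nonneg_left h1 (pow_nonneg hs.le _)
    have hup := nonneg_of_deriv (T := t) (C := 1 / dfac (l + 1) + 1)
      (G := fun s => s ^ (2 * l + 3) / dfac (l + 1) - s ^ (l + 2) * jl (l + 1) s)
      (G' := fun s => s ^ (2 * l + 2) / dfac l - s ^ (l + 2) * jl l s)
      (fun s hs _ => (hG s).sub (jl_up l hs))
      (fun s hs _ => by have := (abs_le.1 (key s hs)).2; linarith)
      (fun s hs hs1 => by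
        have h1 := hsm s hs hs1
        have h2 := small l s hs hs1
        exact (abs_sub _ _).trans (by linarith)) ht le_rfl
    have hlo := nonneg_of_deriv (T := t) (C := 1 / dfac (l + 1) + 1)
      (G := fun s => s ^ (2 * l + 3) / dfac (l + 1) + s ^ (l + 2) * jl (l + 1) s)
      (G' := fun s => s ^ (2 * l + 2) / dfac l + s ^ (l + 2) * jl l s)
      (fun s hs _ => (hG s).add (jl_up l hs))
      (fun s hs _ => by have := (abs_le.1 (key s hs)).1; linarith)
      (fun s hs hs1 => by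
        have h1 := hsm s hs hs1
        have h2 := small l s hs hs1
        exact (abs_add_le _ _).trans (by linarith)) ht le_rfl
    have e : t ^ (2 * l + 3) / dfac (l + 1) = t ^ (l + 2) * (t ^ (l + 1) / dfac (l + 1)) := by
      rw [show 2 * l + 3 = (l + 2) + (l + 1) by ring, pow_add]
      ring
    have hp : 0 < t ^ (l + 2) := pow_pos ht _
    rw [e, ← mul_sub] at hup
    rw [e, ← mul_add] at hlo
    have h1 := nonneg_of_mul_nonneg_right hup hp
    have h2 := nonneg_of_mul_nonneg_right hlo hp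
    rw [abs_le]
    constructor <;> linarith

theorem jl_ge (l : ℕ) {t : ℝ} (ht : 0 < t) :
    t ^ l / dfac l * (1 - t ^ 2 / (2 * (2 * (l : ℝ) + 3))) ≤ jl l t := by
  induction l generalizing t with
  | zero =>
    rw [jl0, dfac, pow_zero, div_one, one_mul, Nat.cast_zero, le_div_iff₀ ht]
    have h : t - t ^ 3 / 6 ≤ Real.sin t := Real.sin_ge_sub_cube ht.le
    have h2 : (1 - t ^ 2 / (2 * (2 * (0 : ℝ) + 3))) * t = t - t ^ 3 / 6 := by ring
    rw [h2]
    exact h
  | succ l ih =>
    have hl : (0 : ℝ) ≤ l := Nat.cast_nonneg l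
    have hd := dfac_pos l
    have hG : ∀ s : ℝ, HasDerivAt (fun s : ℝ => s ^ (2 * l + 3) / dfac (l + 1) -
        s ^ (2 * l + 5) / (2 * (2 * (l : ℝ) + 5) * dfac (l + 1)))
        (s ^ (2 * l + 2) / dfac l * (1 - s ^ 2 / (2 * (2 * (l : ℝ) + 3)))) s := by
      intro s
      have h := ((hasDerivAt_pow (2 * l + 3) s).div_const (dfac (l + 1))).sub
        ((hasDerivAt_pow (2 * l + 5) s).div_const (2 * (2 * (l : ℝ) + 5) * dfac (l + 1)))
      refine h.congr_deriv ?_
      rw [show 2 * l + 3 - 1 = 2 * l + 2 from rfl, show 2 * l + 5 - 1 = (2 * l + 2) + 2 from rfl,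
        pow_add _ _ 2, dfac]
      push_cast
      field_simp
      ring
    have hlo := nonneg_of_deriv (T := t) (C := 1 + (1 / dfac (l + 1) +
        1 / (2 * (2 * (l : ℝ) + 5) * dfac (l + 1))))
      (G := fun s => s ^ (l + 2) * jl (l + 1) s - (s ^ (2 * l + 3) / dfac (l + 1) -
        s ^ (2 * l + 5) / (2 * (2 * (l : ℝ) + 5) * dfac (l + 1))))
      (G' := fun s => s ^ (l + 2) * jl l s - s ^ (2 * l + 2) / dfac l *
        (1 - s ^ 2 / (2 * (2 * (l : ℝ) + 3))))
      (fun s hs _ => (jl_up l hs).sub (hG s))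
      (fun s hs _ => by
        have h1 := ih hs
        have h2 : s ^ (2 * l + 2) / dfac l * (1 - s ^ 2 / (2 * (2 * (l : ℝ) + 3))) =
            s ^ (l + 2) * (s ^ l / dfac l * (1 - s ^ 2 / (2 * (2 * (l : ℝ) + 3)))) := by
          rw [show 2 * l + 2 = (l + 2) + l by ring, pow_add]
          ring
        rw [h2, ← mul_sub]
        exact mul_nonneg (pow_nonneg hs.le _) (by linarith))
      (fun s hs hs1 => by
        have h2 := small l s hs hs1
        have h3 := dfac_pos (l + 1)
        have h4 : |s ^ (2 * l + 3) / dfac (l + 1)| ≤ 1 / dfac (l + 1) * s := by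
          have h1 : s ^ (2 * l + 2) ≤ 1 := pow_le_one₀ hs.le hs1
          rw [abs_of_nonneg (by positivity), pow_succ, one_div, div_eq_mul_inv, mul_comm]
          have h5 : s ^ (2 * l + 2) * s ≤ s := by nlinarith
          exact mul_le_mul_of_nonneg_left h5 (by positivity)
        have h6 : |s ^ (2 * l + 5) / (2 * (2 * (l : ℝ) + 5) * dfac (l + 1))| ≤
            1 / (2 * (2 * (l : ℝ) + 5) * dfac (l + 1)) * s := by
          have h1 : s ^ (2 * l + 4) ≤ 1 := pow_le_one₀ hs.le hs1
          rw [abs_of_nonneg (by positivity), pow_succ, one_div, div_eq_mul_inv, mul_comm]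
          have h5 : s ^ (2 * l + 4) * s ≤ s := by nlinarith
          exact mul_le_mul_of_nonneg_left h5 (by positivity)
        have h7 := abs_sub (s ^ (2 * l + 3) / dfac (l + 1))
          (s ^ (2 * l + 5) / (2 * (2 * (l : ℝ) + 5) * dfac (l + 1)))
        exact (abs_sub _ _).trans (by linarith)) ht le_rfl
    have e : t ^ (2 * l + 3) / dfac (l + 1) - t ^ (2 * l + 5) / (2 * (2 * (l : ℝ) + 5) * dfac (l + 1)) =
        t ^ (l + 2) * (t ^ (l + 1) / dfac (l + 1) *
          (1 - t ^ 2 / (2 * (2 * ((l + 1 : ℕ) : ℝ) + 3)))) := by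
      rw [show 2 * l + 3 = (l + 2) + (l + 1) by ring, show 2 * l + 5 = (l + 2) + (l + 1) + 2 by ring,
        pow_add _ _ 2, pow_add]
      have h3 := dfac_pos (l + 1)
      push_cast
      field_simp
      ring
    rw [e, ← mul_sub] at hlo
    have h1 := nonneg_of_mul_nonneg_right hlo (pow_pos ht _)
    linarith

/-- for `t^2 ≤ 2 l + 3` the value is at least half of the leading term -/
theorem jl_ge_half (l : ℕ) {t : ℝ} (ht : 0 < t) (h : t ^ 2 ≤ 2 * (l : ℝ) + 3) :
    t ^ l / dfac l / 2 ≤ jl l t := by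
  have hl : (0 : ℝ) ≤ l := Nat.cast_nonneg l
  refine le_trans ?_ (jl_ge l ht)
  have h1 : t ^ 2 / (2 * (2 * (l : ℝ) + 3)) ≤ 1 / 2 := by
    rw [div_le_div_iff₀ (by positivity) (by norm_num)]
    linarith
  have h2 : 0 < t ^ l / dfac l := div_pos (pow_pos ht _) (dfac_pos l)
  nlinarith

/-- comparison of two values: `|jl l s| ≤ 2 (s / t)^l jl l t` for `t^2 ≤ 2 l + 3` -/
theorem jl_abs_le_ratio (l : ℕ) {s t : ℝ} (hs : 0 < s) (ht : 0 < t) (h : t ^ 2 ≤ 2 * (l : ℝ) + 3) :
    |jl l s| ≤ 2 * (s / t) ^ l * jl l t := by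
  have h1 := jl_ge_half l ht h
  have h2 := jl_abs_le l hs
  have h3 := dfac_pos l
  have h4 : s ^ l / dfac l = 2 * (s / t) ^ l * (t ^ l / dfac l / 2) := by
    rw [div_pow]
    field_simp
  rw [h4] at h2
  exact h2.trans (mul_le_mul_of_nonneg_left h1 (by positivity))

end Pool.Agent.H23.SB
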