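import Pool.Agent.H21.SN.Div
import Pool.Agent.H23.SB.Mon

/-!
# SB.Val : values at `rho`

`jl k rho = jl 0 rho * y k` for the sequence `y` of `SN`; nondegeneracy and the small divisors.
-/

set_option autoImplicit false

namespace Pool.Agent.H23.SB

open Pool.Agent.H68.SC
open SN (rho y K)

theorem jl1_rho : jl 1 rho = 0 := by
  have h : jl 1 rho = Real.sin rho / rho ^ 2 - Real.cos rho / rho := by rw [jl]
  have h0 : (rho : ℝ) ≠ 0 := SN.rho_pos.ne'
  rw [h, SN.sin_rho]
  field_simp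
  ring

theorem jl0_rho_ne : jl 0 rho ≠ 0 := by
  have h : jl 0 rho = Real.sin rho / rho := by rw [jl]
  have h0 : (rho : ℝ) ≠ 0 := SN.rho_pos.ne'
  rw [h]
  intro hz
  have h1 : Real.sin rho = 0 := (div_eq_zero_iff.1 hz).resolve_right h0
  have h2 : Real.cos rho = 0 := by
    have h3 := SN.sin_rho
    rw [h1] at h3
    exact (mul_eq_zero.1 h3.symm).resolve_left h0
  have h4 := Real.sin_sq_add_cos_sq rho
  rw [h1, h2] at h4
  norm_num at h4

theorem jl_rho (k : ℕ) : jl k rho = jl 0 rho * y k := by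
  have h : jl k rho = jl 0 rho * y k ∧ jl (k + 1) rho = jl 0 rho * y (k + 1) := by
    induction k with
    | zero =>
      constructor
      · rw [y, mul_one]
      · rw [show (0 : ℕ) + 1 = 1 from rfl, jl1_rho, y, mul_zero]
    | succ k ih =>
      refine ⟨ih.2, ?_⟩
      rw [show k + 1 + 1 = k + 2 from rfl, jl_rec, ih.1, ih.2, y]
      ring
  exact h.1

theorem djl_rho (k : ℕ) :
    djl (k + 1) rho = jl 0 rho * (y k - ((k : ℝ) + 2) / rho * y (k + 1)) := by
  rw [djl_succ k SN.rho_pos, jl_rho k, jl_rho (k + 1)]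
  ring

theorem djl_rho_K (k : ℕ) (h : y (k + 1) ≠ 0) : djl (k + 1) rho = jl (k + 1) rho * K (k + 1) := by
  rw [djl_rho, jl_rho (k + 1), SN.K_eq (k + 1) k rfl]
  push_cast
  field_simp
  ring

theorem djl_zero_rho : djl 0 rho = 0 := by
  unfold djl
  rw [show (0 : ℕ) + 1 = 1 from rfl, jl1_rho]
  simp

/-- the Bessel functions above the turning point are positive at `rho` -/
theorem jl_rho_pos (k : ℕ) (h : 1211 ≤ k) : 0 < jl k rho := by
  apply jl_pos_sq k SN.rho_pos
  have h1 := SN.rho_lt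
  have h2 := SN.rho_pos
  have h3 : (1211 : ℝ) ≤ k := by exact_mod_cast h
  norm_num at h1
  nlinarith

/-- all even modes but `478` are nondegenerate -/
theorem jl_rho_ne (k : ℕ) (hk : Even k) (h : k ≠ 478) : jl k rho ≠ 0 := by
  rcases Nat.lt_or_ge 1210 k with h1 | h1
  · exact (jl_rho_pos k h1).ne'
  · rcases Nat.lt_or_ge k 2 with h2 | h2
    · interval_cases k
      · exact jl0_rho_ne
      · exact absurd hk (by decide)
    · rw [jl_rho]
      exact mul_ne_zero jl0_rho_ne (SN.y_ne_zero k hk h2 h1 h)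

theorem K_rho (k : ℕ) (hk : Even k) (h : k ≠ 478) (h2 : 2 ≤ k) (h1 : k ≤ 1210) :
    djl k rho = jl k rho * K k := by
  obtain ⟨m, rfl⟩ : ∃ m, k = m + 1 := ⟨k - 1, by omega⟩
  exact djl_rho_K m (SN.y_ne_zero (m + 1) hk h2 h1 h)

/-- the logarithmic derivatives -/
theorem djl_rho_le (k : ℕ) (hk : Even k) (h : k ≠ 478) (h1 : k ≤ 1210) :
    |djl k rho| ≤ 612 * |jl k rho| := by
  rcases Nat.lt_or_ge k 2 with h2 | h2
  · interval_cases k
    · rw [djl_zero_rho, abs_zero]
      positivity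
    · exact absurd hk (by decide)
  · rw [K_rho k hk h h2 h1, abs_mul, mul_comm]
    exact mul_le_mul_of_nonneg_right (SN.K_le' k hk h2 h1 h) (abs_nonneg _)

theorem y478_ne : y 478 ≠ 0 := SN.D_478.1.ne

theorem djl_ell : djl 478 rho = jl 478 rho * K 478 := djl_rho_K 477 y478_ne

theorem jl_ell_ne : jl 478 rho ≠ 0 := by
  rw [jl_rho]
  exact mul_ne_zero jl0_rho_ne y478_ne

/-- the resonant mode -/
theorem djl_ell_ne : djl 478 rho ≠ 0 := by
  rw [djl_ell]
  exact mul_ne_zero jl_ell_ne SN.D_478.2.1.ne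

theorem D_ell : jl 478 rho / djl 478 rho = 1 / K 478 := by
  rw [djl_ell]
  have h1 := jl_ell_ne
  have h2 := SN.D_478.2.1.ne
  field_simp

theorem D_ell_gt : -(80414 / 10 ^ 12 : ℝ) < jl 478 rho / djl 478 rho := by
  rw [D_ell]
  have h := SN.D_478.2.2.1
  norm_num at h ⊢
  linarith

theorem D_ell_lt : jl 478 rho / djl 478 rho < -(80412 / 10 ^ 12 : ℝ) := by
  rw [D_ell]
  have h := SN.D_478.2.2.2
  norm_num at h ⊢
  linarith

end Pool.Agent.H23.SB
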