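import Pool.Agent.H68.SC.Jl

/-!
# SB.Yl : spherical Neumann functions

`yl 0 t = -cos t / t`, `yl 1 t = -cos t / t^2 - sin t / t`, the same recurrence as `jl`; derivatives,
the differential equation and the Wronskian `t^2 (j y' - j' y) = 1`.
-/

set_option autoImplicit false

namespace Pool.Agent.H23.SB

open Filter Topology
open scoped ContDiff
open Pool.Agent.H68.SC

/-- the spherical Neumann functions -/
noncomputable def yl : ℕ → ℝ → ℝ
  | 0, t => -Real.cos t / t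
  | 1, t => -Real.cos t / t ^ 2 - Real.sin t / t
  | (l + 2), t => (2 * (l : ℝ) + 3) / t * yl (l + 1) t - yl l t

/-- the derivative of `yl l` -/
noncomputable def dyl (l : ℕ) (t : ℝ) : ℝ := (l : ℝ) / t * yl l t - yl (l + 1) t

theorem yl_zero (t : ℝ) : yl 0 t = -Real.cos t / t := by rw [yl]

theorem yl_one (t : ℝ) : yl 1 t = -Real.cos t / t ^ 2 - Real.sin t / t := by rw [yl]

theorem yl_rec (l : ℕ) (t : ℝ) :
    yl (l + 2) t = (2 * (l : ℝ) + 3) / t * yl (l + 1) t - yl l t := by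
  rw [yl]

theorem dyl_succ (l : ℕ) (t : ℝ) :
    dyl (l + 1) t = yl l t - ((l : ℝ) + 2) / t * yl (l + 1) t := by
  unfold dyl
  rw [show l + 1 + 1 = l + 2 from rfl, yl_rec]
  push_cast
  ring

private theorem yl_hda0 {t : ℝ} (ht : 0 < t) : HasDerivAt (yl 0) (dyl 0 t) t := by
  have hne : t ≠ 0 := ht.ne'
  have h := ((Real.hasDerivAt_cos t).neg).div (hasDerivAt_id t) hne
  have he : yl 0 = fun y : ℝ => -Real.cos y / id y := by
    funext y
    rw [yl]
    rfl
  rw [he]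
  have hv : dyl 0 t = (-(-Real.sin t) * id t - (-Real.cos t) * 1) / (id t) ^ 2 := by
    unfold dyl
    rw [show (0 : ℕ) + 1 = 1 from rfl, yl, yl]
    simp only [Nat.cast_zero, id]
    field_simp
    ring
  rw [hv]
  exact h

private theorem yl_hda1 {t : ℝ} (ht : 0 < t) : HasDerivAt (yl 1) (dyl 1 t) t := by
  have hne : t ≠ 0 := ht.ne'
  have h1 := ((Real.hasDerivAt_cos t).neg).div (hasDerivAt_pow 2 t) (pow_ne_zero 2 hne)
  have h2 := (Real.hasDerivAt_sin t).div (hasDerivAt_id t) hne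
  have h := h1.sub h2
  have he : yl 1 = fun y : ℝ => -Real.cos y / y ^ 2 - Real.sin y / id y := by
    funext y
    rw [yl]
    rfl
  rw [he]
  have hv : dyl 1 t = (-(-Real.sin t) * t ^ 2 - (-Real.cos t) * ((2 : ℕ) * t ^ (2 - 1))) / (t ^ 2) ^ 2 -
      (Real.cos t * id t - Real.sin t * 1) / (id t) ^ 2 := by
    unfold dyl
    rw [show (1 : ℕ) + 1 = 0 + 2 from rfl, yl_rec, show (0 : ℕ) + 1 = 1 from rfl, yl, yl]
    simp only [Nat.cast_zero, id, Nat.cast_one, Nat.cast_ofNat]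
    field_simp
    ring
  rw [hv]
  exact h

private theorem yl_hda2 (l : ℕ) {t : ℝ} (ht : 0 < t) (h0 : HasDerivAt (yl l) (dyl l t) t)
    (h1 : HasDerivAt (yl (l + 1)) (dyl (l + 1) t) t) :
    HasDerivAt (yl (l + 2)) (dyl (l + 2) t) t := by
  have hne : t ≠ 0 := ht.ne'
  have hq : HasDerivAt (fun y : ℝ => (2 * (l : ℝ) + 3) / y) (-(2 * (l : ℝ) + 3) / t ^ 2) t := by
    have h := (hasDerivAt_const t (2 * (l : ℝ) + 3)).div (hasDerivAt_id t) hne
    have hv : -(2 * (l : ℝ) + 3) / t ^ 2 = (0 * id t - (2 * (l : ℝ) + 3) * 1) / (id t) ^ 2 := by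
      simp only [id]; ring
    rw [hv]
    exact h
  have h := (hq.mul h1).sub h0
  have he : yl (l + 2) = fun y : ℝ => (2 * (l : ℝ) + 3) / y * yl (l + 1) y - yl l y := by
    funext y
    exact yl_rec l y
  rw [he]
  have hv : dyl (l + 2) t = -(2 * (l : ℝ) + 3) / t ^ 2 * yl (l + 1) t +
      (2 * (l : ℝ) + 3) / t * dyl (l + 1) t - dyl l t := by
    rw [show l + 2 = (l + 1) + 1 from rfl, dyl_succ (l + 1) t, dyl_succ l t,
      show l + 1 + 1 = l + 2 from rfl, yl_rec]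
    unfold dyl
    push_cast
    field_simp
    ring
  rw [hv]
  exact h

private theorem yl_hda (l : ℕ) {t : ℝ} (ht : 0 < t) :
    HasDerivAt (yl l) (dyl l t) t ∧ HasDerivAt (yl (l + 1)) (dyl (l + 1) t) t := by
  induction l with
  | zero => exact ⟨yl_hda0 ht, yl_hda1 ht⟩
  | succ l ih => exact ⟨ih.2, yl_hda2 l ht ih.1 ih.2⟩

theorem yl_deriv (l : ℕ) {t : ℝ} (ht : 0 < t) : HasDerivAt (yl l) (dyl l t) t :=
  (yl_hda l ht).1

theorem yl_ode (l : ℕ) {t : ℝ} (ht : 0 < t) :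
    HasDerivAt (fun t => t ^ 2 * dyl l t) (((l : ℝ) * (l + 1) - t ^ 2) * yl l t) t := by
  have hne : t ≠ 0 := ht.ne'
  have h1 := ((hasDerivAt_id t).const_mul (l : ℝ)).mul (yl_deriv l ht)
  have h2 := (hasDerivAt_pow 2 t).mul (yl_deriv (l + 1) ht)
  have h := h1.sub h2
  have hv : ((l : ℝ) * (l + 1) - t ^ 2) * yl l t =
      ((l : ℝ) * 1 * yl l t + (l : ℝ) * id t * dyl l t) -
      ((2 : ℕ) * t ^ (2 - 1) * yl (l + 1) t + t ^ 2 * dyl (l + 1) t) := by
    rw [dyl_succ l t]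
    unfold dyl
    simp only [id, Nat.cast_ofNat]
    field_simp
    ring
  rw [hv]
  refine h.congr_of_eventuallyEq ?_
  filter_upwards [lt_mem_nhds ht] with y hy
  have hyne : y ≠ 0 := ne_of_gt hy
  simp only [Pi.sub_apply, Pi.mul_apply, id]
  unfold dyl
  field_simp

private theorem yl_cd0 : ContDiffOn ℝ ∞ (yl 0) (Set.Ioi 0) := by
  have he : yl 0 = fun y : ℝ => -Real.cos y / y := by
    funext y
    rw [yl]
  rw [he]
  exact Real.contDiff_cos.neg.contDiffOn.div contDiffOn_id fun x hx => (Set.mem_Ioi.1 hx).ne'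

private theorem yl_cd1 : ContDiffOn ℝ ∞ (yl 1) (Set.Ioi 0) := by
  have he : yl 1 = fun y : ℝ => -Real.cos y / y ^ 2 - Real.sin y / y := by
    funext y
    rw [yl]
  rw [he]
  refine ContDiffOn.sub ?_ ?_
  · exact Real.contDiff_cos.neg.contDiffOn.div (contDiffOn_id.pow 2)
      fun x hx => pow_ne_zero 2 (Set.mem_Ioi.1 hx).ne'
  · exact Real.contDiff_sin.contDiffOn.div contDiffOn_id fun x hx => (Set.mem_Ioi.1 hx).ne'

private theorem yl_cd (l : ℕ) : ContDiffOn ℝ ∞ (yl l) (Set.Ioi 0) ∧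
    ContDiffOn ℝ ∞ (yl (l + 1)) (Set.Ioi 0) := by
  induction l with
  | zero => exact ⟨yl_cd0, yl_cd1⟩
  | succ l ih =>
    refine ⟨ih.2, ?_⟩
    have he : yl (l + 1 + 1) = fun y : ℝ => (2 * (l : ℝ) + 3) / y * yl (l + 1) y - yl l y := by
      funext y
      exact yl_rec l y
    rw [he]
    exact ((contDiffOn_const.div contDiffOn_id
      fun x hx => (Set.mem_Ioi.1 hx).ne').mul ih.2).sub ih.1

theorem yl_smooth (l : ℕ) : ContDiffOn ℝ ∞ (yl l) (Set.Ioi 0) := (yl_cd l).1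

theorem dyl_smooth (l : ℕ) : ContDiffOn ℝ ∞ (dyl l) (Set.Ioi 0) := by
  have he : dyl l = fun y : ℝ => (l : ℝ) / y * yl l y - yl (l + 1) y := rfl
  rw [he]
  exact ((contDiffOn_const.div contDiffOn_id
    fun x hx => (Set.mem_Ioi.1 hx).ne').mul (yl_smooth l)).sub (yl_smooth (l + 1))

/-- the Wronskian in the form of a cross product -/
theorem cross (l : ℕ) {t : ℝ} (ht : 0 < t) :
    t ^ 2 * (jl (l + 1) t * yl l t - jl l t * yl (l + 1) t) = 1 := by
  have hne : t ≠ 0 := ht.ne'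
  induction l with
  | zero =>
    rw [show (0 : ℕ) + 1 = 1 from rfl, yl_zero, yl_one]
    have h0 : jl 0 t = Real.sin t / t := by rw [jl]
    have h1 : jl 1 t = Real.sin t / t ^ 2 - Real.cos t / t := by rw [jl]
    rw [h0, h1]
    have h := Real.sin_sq_add_cos_sq t
    field_simp
    linear_combination t * h
  | succ l ih =>
    rw [show l + 1 + 1 = l + 2 from rfl, jl_rec, yl_rec]
    linear_combination ih

/-- the Wronskian -/
theorem wronsk (l : ℕ) {t : ℝ} (ht : 0 < t) :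
    t ^ 2 * (jl l t * dyl l t - djl l t * yl l t) = 1 := by
  unfold dyl djl
  linear_combination cross l ht

end Pool.Agent.H23.SB
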